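import Pool.Agent.helper77.PV.SpecB

/-! # Project pv (MP_376aaf_an), row pv:D1N -/

set_option autoImplicit false

open scoped Matrix Topology
open Filter

namespace Pool.Agent.PV

open Pool.Agent.CZ

attribute [local instance] Matrix.linftyOpNormedRing Matrix.linftyOpNormedAlgebra

section

variable {B A B' A' : Type} [NormedRing B] [NormedAlgebra ℂ B] [NormedRing A] [NormedAlgebra ℂ A]
  [NormedRing B'] [NormedAlgebra ℂ B'] [NormedRing A'] [NormedAlgebra ℂ A'] {al : B ≃ₐ[ℂ] B}
  {io : B →ₐ[ℂ] A} {u : Aˣ} {c : ℤ → A →ₗ[ℂ] B} {al' : B' ≃ₐ[ℂ] B'} {io' : B' →ₐ[ℂ] A'} {u' : A'ˣ}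
  {c' : ℤ → A' →ₗ[ℂ] B'} {f : B →ₐ[ℂ] B'} {F : A →ₐ[ℂ] A'}

private theorem D1N_u (hm : ZMap al io u al' io' u' f F) (m : ℤ) :
    F ((u ^ m : Aˣ) : A) = ((u' ^ m : A'ˣ) : A') := by
  have e1 : Units.map (F : A →* A') u = u' := Units.ext hm.fu
  have e2 := map_zpow (Units.map (F : A →* A')) u m
  rw [e1] at e2
  rw [← e2]
  rfl

private theorem D1N_c (h : ZPair al io u c) (h' : ZPair al' io' u' c')
    (hm : ZMap al io u al' io' u' f F) (n : ℤ) (a : A) : c' n (F a) = f (c n a) := by
  have hc : Continuous (c n) := AddMonoidHomClass.continuous_of_bound (c n) 1 (fun a => by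
    rw [one_mul]
    exact h.cnorm n a)
  have hc' : Continuous (c' n) := AddMonoidHomClass.continuous_of_bound (c' n) 1 (fun a => by
    rw [one_mul]
    exact h'.cnorm n a)
  have hcl : IsClosed {a : A | c' n (F a) = f (c n a)} :=
    isClosed_eq (hc'.comp hm.cF) (hm.cf.comp hc)
  have hsub : ((Submodule.span ℂ {a : A | ∃ (b : B) (n : ℤ), a = io b * ((u ^ n : Aˣ) : A)} :
      Submodule ℂ A) : Set A) ⊆ {a : A | c' n (F a) = f (c n a)} := by
    intro a ha
    induction ha using Submodule.span_induction with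
    | mem a ha =>
      obtain ⟨b, m, rfl⟩ := ha
      show c' n (F (io b * ((u ^ m : Aˣ) : A))) = f (c n (io b * ((u ^ m : Aˣ) : A)))
      rw [h.cval, map_mul, hm.fio, D1N_u hm, h'.cval]
      split_ifs
      · rfl
      · rw [map_zero]
    | zero =>
      show c' n (F 0) = f (c n 0)
      simp
    | add x y _ _ hx hy =>
      have hx' : c' n (F x) = f (c n x) := hx
      have hy' : c' n (F y) = f (c n y) := hy
      show c' n (F (x + y)) = f (c n (x + y))
      rw [map_add, map_add, hx', hy', map_add, map_add]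
    | smul k x _ hx =>
      have hx' : c' n (F x) = f (c n x) := hx
      show c' n (F (k • x)) = f (c n (k • x))
      rw [map_smul, map_smul, hx', map_smul, map_smul]
  exact hcl.closure_subset_iff.2 hsub (h.dense a)

private theorem D1N_uM (hm : ZMap al io u al' io' u' f F) (κ : Type) [Fintype κ] [DecidableEq κ] :
    umap (F : A →ₐ[ℂ] A').toRingHom (uM κ u) = uM κ u' := by
  apply Units.ext
  show ((Matrix.scalar κ (u : A)).map F) = Matrix.scalar κ (u' : A')
  rw [← hm.fu]
  ext i j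
  simp only [Matrix.map_apply, Matrix.scalar_apply, Matrix.diagonal_apply]
  split_ifs
  · rfl
  · exact map_zero F

private theorem D1N_map (κ : Type) [Fintype κ] [DecidableEq κ] (x y : Matrix κ κ A) :
    (x * y).map F = x.map F * y.map F := Matrix.map_mul (f := (F : A →+* A'))

private theorem D1N_mapB (κ : Type) [Fintype κ] [DecidableEq κ] (x y : Matrix κ κ B) :
    (x * y).map f = x.map f * y.map f := Matrix.map_mul (f := (f : B →+* B'))

private theorem D1N_io (hm : ZMap al io u al' io' u' f F) (κ : Type) (x : Matrix κ κ B) :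
    (x.map io).map F = (x.map f).map io' := by
  ext i j
  exact hm.fio (x i j)

private theorem D1N_uMk (hm : ZMap al io u al' io' u' f F) (κ : Type) [Fintype κ] [DecidableEq κ]
    (m : ℤ) : ((uM κ u ^ m : (Matrix κ κ A)ˣ) : Matrix κ κ A).map F =
      ((uM κ u' ^ m : (Matrix κ κ A')ˣ) : Matrix κ κ A') := by
  have e1 := D1N_uM hm κ
  have e2 := map_zpow (Units.map
    (((F : A →ₐ[ℂ] A').toRingHom.mapMatrix : Matrix κ κ A →+* Matrix κ κ A') :
      Matrix κ κ A →* Matrix κ κ A')) (uM κ u) m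
  have e3 : Units.map (((F : A →ₐ[ℂ] A').toRingHom.mapMatrix : Matrix κ κ A →+* Matrix κ κ A') :
      Matrix κ κ A →* Matrix κ κ A') (uM κ u) = uM κ u' := e1
  rw [e3] at e2
  rw [← e2]
  rfl

private theorem D1N_pX (hm : ZMap al io u al' io' u' f F) (κ : Type) [Fintype κ] [DecidableEq κ]
    (x : ℕ → Matrix κ κ B) (d : ℕ) :
    (pX io u x d).map F = pX io' u' (fun k => (x k).map f) d := by
  unfold pX
  have e1 : ∀ y : Matrix κ κ A, y.map F = (F : A →+* A').mapMatrix y := fun y => rfl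
  rw [e1, map_sum]
  refine Finset.sum_congr rfl fun k _ => ?_
  rw [← e1, D1N_map, D1N_io hm]
  congr 1
  exact D1N_uMk hm κ (k : ℤ)

private theorem D1N_aL (κ : Type) [Fintype κ] [DecidableEq κ] (x : ℕ → Matrix κ κ B) (d : ℕ) :
    (aL d x).map f = aL d (fun k => (x k).map f) := by
  ext p q
  simp only [aL, Matrix.map_apply, Matrix.of_apply]
  split_ifs
  · rfl
  · exact map_one f
  · exact map_zero f

private theorem D1N_bL (κ : Type) [Fintype κ] [DecidableEq κ] (x : ℕ → Matrix κ κ B) (d : ℕ) :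
    (bL d x).map f = bL d (fun k => (x k).map f) := by
  ext p q
  simp only [bL, Matrix.map_apply, Matrix.of_apply]
  split_ifs
  · rfl
  · exact map_zero f
  · rw [map_neg, map_one]
  · exact map_zero f

private theorem D1N_lin (hm : ZMap al io u al' io' u' f F) (κ : Type) [Fintype κ] [DecidableEq κ]
    (a b : Matrix κ κ B) (L : (Matrix κ κ A)ˣ) (hL : IsLin io u a b L) :
    IsLin io' u' (a.map f) (b.map f) (umap F.toRingHom L) := by
  unfold IsLin at *
  show (L : Matrix κ κ A).map F = _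
  have e1 : ∀ y : Matrix κ κ A, y.map F = (F : A →+* A').mapMatrix y := fun y => rfl
  rw [hL, e1, map_add, ← e1, ← e1, D1N_map, D1N_io hm, D1N_io hm]
  congr 2
  have e2 := D1N_uMk hm κ 1
  rw [zpow_one, zpow_one] at e2
  exact e2

private theorem D1N_q (h : ZPair al io u c) (h' : ZPair al' io' u' c')
    (hm : ZMap al io u al' io' u' f F) (κ : Type) [Fintype κ] [DecidableEq κ]
    (b : Matrix κ κ B) (L : (Matrix κ κ A)ˣ) :
    qL al' c' (b.map f) (umap F.toRingHom L) = (qL al c b L).map f := by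
  unfold qL rL
  rw [D1N_mapB]
  congr 1
  · ext i j
    exact D1N_c h h' hm (-1) _
  · ext i j
    show al'.symm (f (b i j)) = f (al.symm (b i j))
    rw [AlgEquiv.symm_apply_eq, ← hm.fal, AlgEquiv.apply_symm_apply]

end

private theorem D1N_htp {A : Type} [Ring A] [TopologicalSpace A] {n : ℕ}
    (g h : (Matrix (Fin n) (Fin n) A)ˣ) (H : Htp g h) : k1 g = k1 h := by
  obtain ⟨γ, hγ, h0, h1⟩ := H
  unfold k1 cls1
  rw [QuotientAddGroup.eq, ← sub_eq_neg_add]
  have e1 : ∀ z w : FreeAbelianGroup (InvMat A), z - w ∈ AddSubgroup.closure (K1Rel A) →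
      w - z ∈ AddSubgroup.closure (K1Rel A) := by
    intro z w hzw
    rw [← neg_sub]
    exact neg_mem hzw
  apply e1
  refine AddSubgroup.subset_closure (Or.inr (Or.inr ⟨_, rix _ g, rix _ h, ⟨⟨fun t =>
    (γ t).submatrix (Fintype.equivFin (Fin n)).symm (Fintype.equivFin (Fin n)).symm,
      γ.continuous.matrix_submatrix _ _⟩, fun t => ?_, ?_, ?_⟩, rfl⟩))
  · exact (hγ t).map (Matrix.reindexRingEquiv A (Fintype.equivFin (Fin n)))
  · show (γ 0).submatrix _ _ = _
    rw [h0]
    rfl
  · show (γ 1).submatrix _ _ = _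
    rw [h1]
    rfl

theorem D1N (hINE : INE_stmt) (hK1G : K1G_stmt) (hQDM : QDM_stmt) : D1N_stmt := by
  intro B A B' A' _ _ _ _ _ _ _ _ _ _ _ _ al io u c al' io' u' c' f F hF h h' hm d1 d1' hd1 hd1' y
  obtain ⟨n, g, rfl⟩ := hK1G A y
  obtain ⟨z, hz⟩ := hINE B A al io u c h (Fin n) g
  have hz1 := hd1 (Fin n) g z hz
  obtain ⟨N, d, x, L, hq, hd, hx, hn, hL, hz0⟩ := hz
  have hC : CompleteSpace (Matrix (Fin n) (Fin n) A) := inferInstance
  have hC' : @CompleteSpace (Matrix (Fin n) (Fin n) A) PseudoMetricSpace.toUniformSpace := hC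
  have hS : HasSummableGeomSeries (Matrix (Fin n) (Fin n) A) := inferInstance
  set Y : Matrix (Fin n) (Fin n) A :=
    pX io u x d * ((uM (Fin n) u ^ (-(N : ℤ)) : (Matrix (Fin n) (Fin n) A)ˣ) :
      Matrix (Fin n) (Fin n) A) with hY
  set T : Matrix (Fin n) (Fin n) A := 1 - ((g⁻¹ : (Matrix (Fin n) (Fin n) A)ˣ) :
    Matrix (Fin n) (Fin n) A) * Y with hT
  have hpath : ∀ t : unitInterval, ‖((t : ℝ) : ℂ) • T‖ < 1 := by
    intro t
    rw [norm_smul, Complex.norm_real, Real.norm_of_nonneg t.2.1]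
    calc (t : ℝ) * ‖T‖ ≤ 1 * ‖T‖ := mul_le_mul_of_nonneg_right t.2.2 (norm_nonneg _)
      _ = ‖T‖ := one_mul _
      _ < 1 := hn
  let W : unitInterval → (Matrix (Fin n) (Fin n) A)ˣ := fun t =>
    Units.oneSub (((t : ℝ) : ℂ) • T) (hpath t)
  let Yu : (Matrix (Fin n) (Fin n) A)ˣ := g * W 1
  have hYu : (Yu : Matrix (Fin n) (Fin n) A) = Y := by
    show (g : Matrix (Fin n) (Fin n) A) * (1 - (((1 : unitInterval) : ℝ) : ℂ) • T) = Y
    rw [hT]
    simp
  have hgY : Htp g Yu := by
    refine ⟨⟨fun t => (g : Matrix (Fin n) (Fin n) A) * (1 - ((t : ℝ) : ℂ) • T), ?_⟩, ?_, ?_, ?_⟩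
    · have e1 : Continuous fun t : unitInterval => ((t : ℝ) : ℂ) :=
        Complex.continuous_ofReal.comp continuous_subtype_val
      exact continuous_const.mul (continuous_const.sub (e1.smul continuous_const))
    · intro t
      exact ⟨g * W t, rfl⟩
    · show (g : Matrix (Fin n) (Fin n) A) * (1 - (((0 : unitInterval) : ℝ) : ℂ) • T) = _
      simp
    · rfl
  have hk := D1N_htp g Yu hgY
  rw [hz1, hk, k1map_k1]
  have hI : IsInd al' io' u' c' (umap F.toRingHom Yu) (k0map f.toRingHom z) := by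
    have hqq : (qL al c (bL d x) L).map f * (qL al c (bL d x) L).map f =
        (qL al c (bL d x) L).map f := by
      rw [← D1N_mapB, hq]
    have e0 : qL al' c' (bL d fun k => (x k).map f) (umap F.toRingHom L) =
        (qL al c (bL d x) L).map f := by
      rw [← D1N_bL, D1N_q h h' hm]
    refine ⟨N, d, fun k => (x k).map f, umap F.toRingHom L, by rw [e0, hqq], hd, ?_, ?_, ?_, ?_⟩
    · intro k hk
      show (x k).map f = 0
      rw [hx k hk]
      exact Matrix.map_zero f (map_zero f)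
    · have e1 : pX io' u' (fun k => (x k).map f) d *
          ((uM (Fin n) u' ^ (-(N : ℤ)) : (Matrix (Fin n) (Fin n) A')ˣ) :
            Matrix (Fin n) (Fin n) A') =
          ((umap F.toRingHom Yu : (Matrix (Fin n) (Fin n) A')ˣ) : Matrix (Fin n) (Fin n) A') := by
        show _ = (Yu : Matrix (Fin n) (Fin n) A).map F
        rw [hYu, hY, D1N_map, D1N_pX hm, D1N_uMk hm]
      rw [e1, Units.inv_mul, sub_self, norm_zero]
      exact one_pos
    · rw [← D1N_aL, ← D1N_bL]
      exact D1N_lin hm _ _ _ L hL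
    · rw [hz0, map_sub, map_nsmul]
      congr 1
      · have e1 : k0map f.toRingHom (k0 (qL al c (bL d x) L) hq) =
            k0 ((qL al c (bL d x) L).map f) hqq := rfl
        rw [e1]
        simp only [e0]
      · congr 1
        have e2 : k0map f.toRingHom (unitCls B) = cls (imap f.toRingHom ⟨1, 1, one_mul 1⟩) := rfl
        rw [e2]
        unfold unitCls imap
        congr 2
        exact Matrix.map_one f (map_zero f) (map_one f)
  exact (hd1' (Fin n) _ _ hI).symm

end Pool.Agent.PV
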