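import Pool.Agent.helper53.PV.SpecF

/-! # Project pv (MP_376aaf_an), row pvf:FCP -/

set_option autoImplicit false

open scoped Topology
open MeasureTheory Filter

namespace Pool.Agent.PV

open Pool.Agent.CZ

theorem FCP : FCP_stmt := by
  intro X _ _ _ _ x₀ hx
  obtain ⟨W, hW⟩ := (𝓝 x₀).exists_antitone_basis
  have step : ∀ (j : ℕ) (U : {U : Set X // IsClopen U ∧ x₀ ∈ U}),
      ∃ V : {U : Set X // IsClopen U ∧ x₀ ∈ U}, V.1 ⊆ U.1 ∧ V.1 ⊆ W j ∧ (U.1 \ V.1).Nonempty := by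
    rintro j ⟨U, hU, hxU⟩
    obtain ⟨z, hz, hzx⟩ := hx U (hU.isOpen.mem_nhds hxU)
    have hWj : W j ∈ 𝓝 x₀ := hW.1.mem_of_mem trivial
    obtain ⟨V, hV, hxV, hVU⟩ := compact_exists_isClopen_in_isOpen (x := x₀)
      (U := (U ∩ interior (W j)) ∩ {z}ᶜ)
      ((hU.isOpen.inter isOpen_interior).inter isOpen_compl_singleton)
      ⟨⟨hxU, mem_interior_iff_mem_nhds.2 hWj⟩, fun h => hzx h.symm⟩
    exact ⟨⟨V, hV, hxV⟩, fun y hy => (hVU hy).1.1, fun y hy => interior_subset (hVU hy).1.2,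
      z, hz, fun h => (hVU h).2 rfl⟩
  choose F hF using step
  let U : ℕ → {U : Set X // IsClopen U ∧ x₀ ∈ U} := fun n =>
    Nat.rec ⟨Set.univ, isClopen_univ, Set.mem_univ _⟩ (fun j U => F j U) n
  have hU : ∀ j, U (j + 1) = F j (U j) := fun j => rfl
  refine ⟨fun j => (U j).1, rfl, fun j => ⟨(U j).2.1, (U j).2.2, ?_, ?_⟩, fun V hV => ?_⟩
  · show (U (j + 1)).1 ⊆ (U j).1
    rw [hU]
    exact (hF j (U j)).1
  · show ((U j).1 \ (U (j + 1)).1).Nonempty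
    rw [hU]
    exact (hF j (U j)).2.2
  · obtain ⟨j, -, hj⟩ := hW.1.mem_iff.1 hV
    refine ⟨j + 1, ?_⟩
    show (U (j + 1)).1 ⊆ V
    rw [hU]
    exact ((hF j (U j)).2.1).trans hj

end Pool.Agent.PV
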