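import Pool.Agent.helper77.PV.SpecB

/-! # Project pv (MP_376aaf_an), row pv:INH -/

set_option autoImplicit false

open scoped Matrix Topology
open Filter

namespace Pool.Agent.PV

open Pool.Agent.CZ

attribute [local instance] Matrix.linftyOpNormedRing Matrix.linftyOpNormedAlgebra

theorem INH (hINE : INE_stmt) (hINU : INU_stmt) (hAPX : APX_stmt) (hLFA : LFA_stmt)
    (hQDM : QDM_stmt) : INH_stmt := by
  intro B A _ _ _ _ _ _ al io u c hZ ι _ _ g g' z hgg hz
  obtain ⟨γ, hγ, h0, h1⟩ := hgg
  let G : unitInterval → (Matrix ι ι A)ˣ := fun t => (hγ t).unit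
  have hG : ∀ t, (G t : Matrix ι ι A) = γ t := fun t => rfl
  have hG0 : G 0 = g := Units.ext h0
  have hG1 : G 1 = g' := Units.ext h1
  have hC : CompleteSpace (Matrix ι ι A) := inferInstance
  have hC' : @CompleteSpace (Matrix ι ι A) PseudoMetricSpace.toUniformSpace := hC
  have hS : HasSummableGeomSeries (Matrix ι ι A) := inferInstance
  have key : IsLocallyConstant fun t => IsInd al io u c (G t) z := by
    rw [IsLocallyConstant.iff_eventually_eq]
    intro t₀
    obtain ⟨z₀, N, d, x, L, h, hd, hx, hn, hL, hz₀⟩ := hINE B A al io u c hZ ι (G t₀)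
    have hcont : ContinuousAt (fun t : unitInterval => ‖1 - ((G t)⁻¹ : (Matrix ι ι A)ˣ) *
        (pX io u x d * ((uM ι u ^ (-(N : ℤ)) : (Matrix ι ι A)ˣ) : Matrix ι ι A))‖) t₀ := by
      have e1 : ContinuousAt (fun t : unitInterval => Ring.inverse (γ t)) t₀ := by
        have e2 := NormedRing.inverse_continuousAt (G t₀)
        exact ContinuousAt.comp (f := fun t => γ t) (g := Ring.inverse) (by exact e2)
          γ.continuous.continuousAt
      have e3 : (fun t : unitInterval => Ring.inverse (γ t)) =
          fun t => (((G t)⁻¹ : (Matrix ι ι A)ˣ) : Matrix ι ι A) := by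
        funext t
        rw [← hG t, Ring.inverse_unit]
      rw [e3] at e1
      exact (continuousAt_const.sub (e1.mul continuousAt_const)).norm
    have hev := hcont.eventually (gt_mem_nhds hn)
    have hi : ∀ t, ‖1 - ((G t)⁻¹ : (Matrix ι ι A)ˣ) *
        (pX io u x d * ((uM ι u ^ (-(N : ℤ)) : (Matrix ι ι A)ˣ) : Matrix ι ι A))‖ < 1 →
        (IsInd al io u c (G t) z ↔ z = z₀) := by
      intro t ht
      have hI : IsInd al io u c (G t) z₀ := ⟨N, d, x, L, h, hd, hx, ht, hL, hz₀⟩
      constructor
      · intro hzz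
        exact hINU B A al io u c hZ ι (G t) z z₀ hzz hI
      · rintro rfl
        exact hI
    filter_upwards [hev] with t ht
    exact propext ((hi t ht).trans (hi t₀ hn).symm)
  have e := key.apply_eq_of_preconnectedSpace 0 1
  simp only [hG0, hG1] at e
  rw [← e]
  exact hz

end Pool.Agent.PV
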