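import Pool.Agent.helper53.PV.SpecD

/-! # Project pv (MP_376aaf_an), row pvd:JTC -/

set_option autoImplicit false

open scoped Topology
open MeasureTheory Filter

namespace Pool.Agent.PV

open Pool.Agent.CZ

private theorem JTC_up {A : Type} [CStarAlgebra A] (u : unitary A) (n m : ℤ) :
    up u n * up u m = up u (n + m) := by
  unfold up
  rw [zpow_add]
  rfl

theorem JTC (hCEX : CEX_stmt) (hJCX : JCX_stmt) : JTC_stmt := by
  intro X _ _ α A _ ι u c hc φ a b
  obtain ⟨hadd, hsmul, -, -, hinv, hnorm, -⟩ := hJCX X α φ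
  have hex := hCEX X α A ι u c hc
  let Λ₀ : A →ₗ[ℂ] ℂ :=
    { toFun := fun a => φ.cx (c 0 a)
      map_add' := fun a b => by rw [map_add, hadd]
      map_smul' := fun z a => by rw [map_smul, hsmul]; rfl }
  let Λ : A →L[ℂ] ℂ := Λ₀.mkContinuous 2 fun a => by
    show ‖φ.cx (c 0 a)‖ ≤ 2 * ‖a‖
    exact (hnorm _).trans (mul_le_mul_of_nonneg_left (hc.cnorm 0 a) (by norm_num))
  have hΛ : ∀ a, Λ a = φ.cx (c 0 a) := fun a => rfl
  have hmon : ∀ (f g : C(X, ℂ)) (n m : ℤ),
      Λ ((ι f * up u n) * (ι g * up u m)) = Λ ((ι g * up u m) * (ι f * up u n)) := by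
    intro f g n m
    have e1 : ∀ (f g : C(X, ℂ)) (n m : ℤ), (ι f * up u n) * (ι g * up u m) =
        ι (f * sh α (-n) g) * up u (n + m) := by
      intro f g n m
      calc (ι f * up u n) * (ι g * up u m) = ι f * (up u n * ι g) * up u m := by
            simp only [mul_assoc]
        _ = ι (f * sh α (-n) g) * up u (n + m) := by
            rw [hex, map_mul, ← JTC_up]
            simp only [mul_assoc]
    rw [e1, e1, hΛ, hΛ, hc.cval, hc.cval]
    by_cases h : n + m = 0
    · have h1 : m = -n := by omega
      subst h1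
      rw [if_pos (by omega), if_pos (by omega), neg_neg, ← hinv n (f * sh α (-n) g)]
      congr 1
      ext x
      show (f ((α ^ n) x)) * g ((α ^ (-n)) ((α ^ n) x)) = g x * f ((α ^ n) x)
      have e2 : (α ^ (-n)) ((α ^ n) x) = x := by
        rw [zpow_zpow_apply]
        have e3 : -n + n = 0 := by omega
        simp only [e3, zpow_zero]
        rfl
      rw [e2, mul_comm]
    · rw [if_neg (fun h' => h h'.symm), if_neg (fun h' => h (by omega))]
  -- the general case
  have hb : ∀ (f : C(X, ℂ)) (n : ℤ) (b : A), Λ ((ι f * up u n) * b) = Λ (b * (ι f * up u n)) := by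
    intro f n b
    have hcl : IsClosed {b : A | Λ ((ι f * up u n) * b) = Λ (b * (ι f * up u n))} :=
      isClosed_eq (Λ.continuous.comp (continuous_const.mul continuous_id))
        (Λ.continuous.comp (continuous_id.mul continuous_const))
    have hsub : ((Submodule.span ℂ {a : A | ∃ (f : C(X, ℂ)) (n : ℤ),
        a = ι f * ((u ^ n : unitary A) : A)} : Submodule ℂ A) : Set A) ⊆
        {b : A | Λ ((ι f * up u n) * b) = Λ (b * (ι f * up u n))} := by
      intro y hy
      induction hy using Submodule.span_induction with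
      | mem y hy =>
        obtain ⟨g, m, rfl⟩ := hy
        exact hmon f g n m
      | zero => simp
      | add x y _ _ hx hy =>
        have hx' : Λ ((ι f * up u n) * x) = Λ (x * (ι f * up u n)) := hx
        have hy' : Λ ((ι f * up u n) * y) = Λ (y * (ι f * up u n)) := hy
        show Λ ((ι f * up u n) * (x + y)) = Λ ((x + y) * (ι f * up u n))
        rw [mul_add, add_mul, map_add, map_add, hx', hy']
      | smul k x _ hx =>
        have hx' : Λ ((ι f * up u n) * x) = Λ (x * (ι f * up u n)) := hx
        show Λ ((ι f * up u n) * (k • x)) = Λ ((k • x) * (ι f * up u n))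
        rw [mul_smul_comm, smul_mul_assoc, map_smul, map_smul, hx']
    exact hcl.closure_subset_iff.2 hsub (hc.dense b)
  have hcl : IsClosed {a : A | Λ (a * b) = Λ (b * a)} :=
    isClosed_eq (Λ.continuous.comp (continuous_id.mul continuous_const))
      (Λ.continuous.comp (continuous_const.mul continuous_id))
  have hsub : ((Submodule.span ℂ {a : A | ∃ (f : C(X, ℂ)) (n : ℤ),
      a = ι f * ((u ^ n : unitary A) : A)} : Submodule ℂ A) : Set A) ⊆
      {a : A | Λ (a * b) = Λ (b * a)} := by
    intro y hy
    induction hy using Submodule.span_induction with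
    | mem y hy =>
      obtain ⟨g, m, rfl⟩ := hy
      exact hb g m b
    | zero => simp
    | add x y _ _ hx hy =>
      have hx' : Λ (x * b) = Λ (b * x) := hx
      have hy' : Λ (y * b) = Λ (b * y) := hy
      show Λ ((x + y) * b) = Λ (b * (x + y))
      rw [mul_add, add_mul, map_add, map_add, hx', hy']
    | smul k x _ hx =>
      have hx' : Λ (x * b) = Λ (b * x) := hx
      show Λ ((k • x) * b) = Λ (b * (k • x))
      rw [mul_smul_comm, smul_mul_assoc, map_smul, map_smul, hx']
  exact hcl.closure_subset_iff.2 hsub (hc.dense a)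

end Pool.Agent.PV
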